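import Pool.Agent.Run7.h509.Vs

/-!
# Vassiliev invariants of bounded order separate diagrams with twist regions of about the same size from all smaller ones

Diagrams: `Pool.Agent.H891R2.Jones.Diagram` (`Diagram`: oriented diagrams with marked points; the arcs only say
which marked points are joined, so planarity is not required; `Diagram.IsClosed`: the pieces fit together to
closed oriented curves) and `Pool.Agent.H891R2.MT.Defs` (`UDiagram`, `Orients D U`: `D` is `U` with directions).

Vassiliev invariants: `Pool.Agent.H832R3.VJ.Defs` (`Dia`: an oriented diagram with the finite set of its marked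
points; `Move`: relabelling, subdivision of strands and the Reidemeister moves; `sing`: extension to diagrams
with double points by the Vassiliev skein relation; `IsVassiliev n v`: `v` is an invariant of oriented links of
order at most `n`; `Separated d X Y`: some integer valued Vassiliev invariant of order at most `d` has
different values on `X` and `Y`; `unknot`).

Templates: `Pool.Agent.H832R3.TW.Defs` (`Corner k`: the `4 k` corners of `k` boxes; a template is the list
`arcs` of the pairs of corners joined outside of the boxes; `twisted arcs n`: the diagram in which the box `e`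
contains a row of `|n e|` crossings of the kind given by the sign of `n e`; `loops arcs S`: the number of
components if the boxes `e ∈ S` contain two vertical strands (along the row) and the other boxes two
horizontal ones (the box is cut)).  Every link diagram whose crossings are divided into `k` twist regions
(rows of crossings of the same kind) is of the form `twisted arcs n`.
`FSpanLE s X` (in `Pool.Agent.H832R3.TW.E`): the normalised bracket of `X` is supported in an interval of length at
most `4 s` (the Jones polynomial has span at most `s`).

New definitions (`Pool.Agent.Run7.h509.Tp`, `Tp3`, `Vs`):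

* `ClosedT arcs`: every corner is joined by an arc to exactly one other corner.
* `pieces arcs X`: the number of connected pieces of the diagram in which the boxes outside `X` are cut and every
  box in `X` counts as one piece with its four corners.
* `ReducedT arcs Y`: the diagram remains connected if one or two of the boxes in `Y` are cut.  (A box which
  disconnects the diagram if it is cut is nugatory; two boxes which disconnect a plane diagram can be united by a
  flype.)
* `SpansT arcs Y`: `|Yᶜ| + pieces Yᶜ = loops ∅`; the boxes outside `Y`, as edges between the components of the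
  state `∅` (all boxes cut), form a forest (always true for `Y = univ`).
* `ordT k s = 2^k (12 k + 1) + 4 (k + s + 1)`.
* `ordP k k' = 2^k (12 k + 4 k' + 5) + 2^k' (12 k' + 4 k + 5)`.

Proof: a power of `δ = - A² - A⁻²` times the normalised bracket of a diagram with `k` twist regions has at most
`2^k (12 k + 1)` terms, whatever the numbers of the crossings are.  The moments of a Laurent polynomial are Vassiliev
invariants, and a polynomial with few terms is determined by few moments.  So two diagrams which are not separated
have the same normalised bracket, and `D` has a short bracket.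
Then the exponents of the terms decompose into clusters which cancel, and the sum of `∏_{e ∈ Q} (u e - 1)` over the
sets `Q` of boxes which span the dual of the cycle matroid of the graph (components of the state `∅`, boxes) vanishes
for all `u` which are constant on the clusters.  But for a simple matroid and weights in `[-2, 0)` it has the sign
`(-1)^r`.
-/

set_option autoImplicit false

namespace Pool.Agent.Results.MP_31fd3b_gt.BalancedTwistPairs

open Finset Pool.Agent.H891R2.Jones Pool.Agent.H891R2.MT Pool.Agent.H832R3.TW Pool.Agent.H832R3.VJ Run7.h509.Tp Run7.h509.Vs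

/-- Let `arcs` be a closed template with `k` boxes, let `Y` be a nonempty spanning set of boxes which are reduced
(for instance all boxes), and let `D` be the link diagram with `|n e|` crossings in the box `e`, with any
directions.  Suppose that one of the following holds:

* (i) there are real numbers `u e`, with `-1 ≤ u e < 1` for `e ∈ Y` and `u e = 1` for `e ∉ Y`, such that
  `∏_{e ∈ R} u e = ∏_{e ∈ R'} u e` for all sets `R`, `R'` of boxes with `|n(R) - n(R')| ≤ 4 k + s + 1`;
* (ii) there are a real number `M > ∑ e, |n e - M m e| + 4 k + s + 1` and integers `m e`, odd for `e ∈ Y` and even for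
  `e ∉ Y`;
* (iii) `|n e| ∈ [M, M + C]` for `e ∈ Y`, with arbitrary signs, and `|n e| ≤ C` for `e ∉ Y`, where
  `M > k C + 4 k + s + 1`.

Then:

* Every link diagram `X` whose Jones polynomial has span at most `s` (for instance of a knot with at most `s`
  crossings) is separated from `D` by a Vassiliev invariant of order at most
  `ordT k s = 2^k (12 k + 1) + 4 (k + s + 1)`.
* Every diagram `D'` with `k'` twist regions, on any template and of any length, whose Jones polynomial has span at
  most `s`, is separated from `D` by a Vassiliev invariant of order at most
  `ordP k k' = 2^k (12 k + 4 k' + 5) + 2^k' (12 k' + 4 k + 5)`, which depends neither on `s` nor on the twist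
  numbers. -/
theorem result {k : ℕ} (arcs : List (Corner k × Corner k)) (ho : ClosedT arcs) (Y : Finset (Fin k))
    (hY : Y.Nonempty) (hred : ReducedT arcs Y) (hsp : SpansT arcs Y) (s : ℕ) (n : Fin k → ℤ)
    (h : (∃ u : Fin k → ℝ, (∀ e ∈ Y, -1 ≤ u e ∧ u e < 1) ∧ (∀ e, e ∉ Y → u e = 1) ∧
        ∀ R R' : Finset (Fin k), |∑ e ∈ R, n e - ∑ e ∈ R', n e| ≤ 4 * k + s + 1 →
          ∏ e ∈ R, u e = ∏ e ∈ R', u e) ∨
      (∃ (M : ℝ) (m : Fin k → ℤ), (∀ e, Odd (m e) ↔ e ∈ Y) ∧
        ∑ e, |(n e : ℝ) - M * m e| + 4 * k + s + 1 < M) ∨
      (∃ M C : ℕ, k * C + 4 * k + s + 1 < M ∧ (∀ e ∈ Y, (M : ℤ) ≤ |n e| ∧ |n e| ≤ M + C) ∧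
        ∀ e, e ∉ Y → |n e| ≤ C))
    (D : Diagram (Ribbon.Pt n)) (hD : Orients D (twisted arcs n)) (_ : D.IsClosed) :
    (∀ X : Dia, FSpanLE s X.D → Separated (ordT k s) ⟨_, inferInstance, D⟩ X) ∧
    ∀ (k' : ℕ), 0 < k' → ∀ (arcs' : List (Corner k' × Corner k')) (n' : Fin k' → ℤ)
      (D' : Diagram (Ribbon.Pt n')), Orients D' (twisted arcs' n') → FSpanLE s D' →
        Separated (ordP k k') ⟨_, inferInstance, D⟩ ⟨_, inferInstance, D'⟩ := by
  have hk : 0 < k := by
    obtain ⟨e, _⟩ := hY
    exact Fin.pos e
  have hb : Balanced Y n (4 * k + s + 1) := by
    rcases h with h | ⟨M, m, hm, hM⟩ | ⟨M, C, hM, h1, h2⟩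
    · exact Or.inl h
    · refine Or.inr (Or.inl ⟨M, m, hm, ?_⟩)
      push_cast
      linarith
    · refine Or.inr (Or.inr ⟨M, C, ?_, h1, h2⟩)
      have : ((k * C + 4 * k + s + 1 : ℕ) : ℤ) < M := by exact_mod_cast hM
      push_cast at this
      linarith
  have key := balancedT (Or.inl ho) hY hred hsp s n hb D hD
  refine ⟨fun X hX => sep_fix arcs hk s n D hD X hX (fun he => key ?_),
    fun k' hk' arcs' n' D' hD' hs => sep_pair arcs arcs' hk hk' n n' D hD D' hD' (fun he => key ?_)⟩
  · unfold FSpanLE at hX ⊢
    rwa [he]
  · unfold FSpanLE at hs ⊢
    rwa [he]

end Pool.Agent.Results.MP_31fd3b_gt.BalancedTwistPairs
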