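import Pool.Agent.Run7.h849.SC.Top

/-!
# Vassiliev invariants determine the twist numbers of signed even chains

The definitions (Vassiliev invariants, diagrams of signed chains) are in
`Pool.Agent.Run7.h849.SC.Dfn`, Seifert circles in `Pool.Agent.Run7.h849.Dfn`, the sliced oriented
diagrams and their isotopy in `Pool.Agent.Helper454.Wh.Defs`.
-/

set_option autoImplicit false

namespace Pool.Agent.Results.MP_31fd3b_gt.SignedChainPairs

open Pool.Agent.Helper454.Wh (OClosed)
open Run7.h849 (seif)
open Run7.h849.SC

/-- Two diagrams of signed even chains with at least two crossings in every band are separated by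
Vassiliev invariants of order at most `25 (s + s') + 1`, where `s` and `s'` are the numbers of their
Seifert circles, unless the multisets of the signed numbers of crossings of their bands and the
numbers of their Seifert circles are equal. -/
theorem result (w w' : List Bz) (hw : Chained w) (hw' : Chained w') (h : Heavy w) (h' : Heavy w') :
    OClosed (expand w) ∧ OClosed (expand w') ∧
      (¬ ((bands w).Perm (bands w') ∧ seif (expand w) = seif (expand w')) →
        Separated (25 * (seif (expand w) + seif (expand w')) + 1) (expand w) (expand w')) :=
  ⟨closed_expand hw, closed_expand hw', fun hne => main_pair hw hw' h h' hne⟩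

end Pool.Agent.Results.MP_31fd3b_gt.SignedChainPairs
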