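import Pool.Agent.Run7.h849.SC.Top

/-!
# Vassiliev invariants and links of smaller braid index

The definitions (Vassiliev invariants, diagrams of signed chains) are in
`Pool.Agent.Run7.h849.SC.Dfn`, Seifert circles and closed braids in `Pool.Agent.Run7.h849.Dfn`, the
sliced oriented diagrams and their isotopy in `Pool.Agent.Helper454.Wh.Defs`.
-/

set_option autoImplicit false

namespace Pool.Agent.Results.MP_31fd3b_gt.SmallerBraidIndex

open Pool.Agent.Helper454.Wh (OClosed)
open Run7.h849 (seif clo BraidWord)
open Run7.h849.SC

/-- Let `w` be a base diagram with even chains, none of whose bands consists of a single crossing.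
The diagram `expand w` is separated from every closed braid with fewer strands than the number `s` of
the Seifert circles of `expand w` by Vassiliev invariants of order at most `8 s`. -/
theorem result (w : List Bz) (hw : Chained w) (h : ∀ n ∈ bands w, n ≠ 1 ∧ n ≠ -1) :
    OClosed (expand w) ∧
      ∀ (m : ℕ) (α : List (ℕ × Bool)), BraidWord m α → m < seif (expand w) →
        Separated (8 * seif (expand w)) (expand w) (clo m α) :=
  ⟨closed_expand hw, fun _ _ hα hm => sep_braid hw h hm hα⟩

end Pool.Agent.Results.MP_31fd3b_gt.SmallerBraidIndex
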